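import Pool.Agent.W237.RK.LDefs

set_option autoImplicit false

/-! L7: Fontaine's bound for the different (helper803). -/

namespace Pool.Agent.W803.RK
open Pool.Agent.W237.RK Polynomial

namespace L7

variable {p : ℕ} [Fact p.Prime]

theorem norm_aut (σ : LAut p) (x : Om p) : ‖σ x‖ = ‖x‖ := by
  have h := spectralNorm_eq_of_equiv (K := ℚ_[p]) (L := PadicAlgCl p) σ x
  rw [PadicAlgCl.spectralNorm_eq, PadicAlgCl.spectralNorm_eq] at h
  exact h.symm

theorem lfix_mem {F : LF p} {x : Om p} (h : ∀ σ : LAut p, LFix F σ → σ x = x) : x ∈ F := by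
  have h1 : x ∈ IntermediateField.fixedField (IntermediateField.fixingSubgroup F) := by
    rw [IntermediateField.mem_fixedField_iff]
    intro σ hσ
    rw [IntermediateField.mem_fixingSubgroup_iff] at hσ
    exact h σ hσ
  rwa [InfiniteGalois.fixedField_fixingSubgroup] at h1

theorem lorb_finite (F : LF p) (x : Om p) : (lorb F x).Finite := by
  have hint : IsIntegral ℚ_[p] x := Algebra.IsIntegral.isIntegral x
  refine ((minpoly ℚ_[p] x).rootSet (PadicAlgCl p)).toFinite.subset ?_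
  rintro y ⟨σ, -, rfl⟩
  rw [mem_rootSet]
  refine ⟨minpoly.ne_zero hint, ?_⟩
  have h : aeval (σ x) (minpoly ℚ_[p] x) = σ (aeval x (minpoly ℚ_[p] x)) :=
    aeval_algHom_apply σ.toAlgHom x _
  rw [h, minpoly.aeval, map_zero]

theorem lfix_mul {F : LF p} {σ τ : LAut p} (h : LFix F σ) (h' : LFix F τ) : LFix F (σ * τ) := by
  intro x hx
  rw [AlgEquiv.mul_apply, h' x hx, h x hx]

theorem lfix_inv {F : LF p} {σ : LAut p} (h : LFix F σ) : LFix F σ⁻¹ := by
  intro x hx
  have h1 : σ⁻¹ (σ x) = x := AlgEquiv.symm_apply_apply σ x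
  rw [h x hx] at h1
  exact h1

theorem self_mem (F : LF p) (x : Om p) : x ∈ lorb F x := ⟨1, fun _ _ => rfl, rfl⟩

theorem lorb_map {F : LF p} {x y : Om p} {σ : LAut p} (h : LFix F σ) (hy : y ∈ lorb F x) :
    σ y ∈ lorb F x := by
  obtain ⟨τ, hτ, rfl⟩ := hy
  exact ⟨σ * τ, lfix_mul h hτ, rfl⟩

/-- the polynomial of the conjugates -/
noncomputable def oP (F : LF p) (x : Om p) : (Om p)[X] :=
  ∏ y ∈ (lorb_finite F x).toFinset, (X - C y)

theorem oP_monic (F : LF p) (x : Om p) : (oP F x).Monic := by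
  unfold oP
  exact monic_prod_of_monic _ _ fun y _ => monic_X_sub_C y

theorem oP_deg (F : LF p) (x : Om p) : (oP F x).natDegree = (lorb F x).ncard := by
  unfold oP
  rw [natDegree_prod_of_monic _ _ fun y _ => monic_X_sub_C y]
  simp only [natDegree_X_sub_C, Finset.sum_const, smul_eq_mul, mul_one]
  rw [Set.ncard_eq_toFinset_card _ (lorb_finite F x)]

theorem oP_eval (F : LF p) (x β : Om p) :
    (oP F x).eval β = ∏ y ∈ (lorb_finite F x).toFinset, (β - y) := by
  unfold oP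
  rw [eval_prod]
  simp

theorem oP_map (F : LF p) (x : Om p) {σ : LAut p} (h : LFix F σ) :
    (oP F x).map (σ : Om p →+* Om p) = oP F x := by
  unfold oP
  rw [Polynomial.map_prod]
  refine Finset.prod_bij (fun y _ => σ y) ?_ ?_ ?_ ?_
  · intro y hy
    rw [Set.Finite.mem_toFinset] at hy ⊢
    exact lorb_map h hy
  · intro y _ z _ hyz
    exact σ.injective hyz
  · intro y hy
    rw [Set.Finite.mem_toFinset] at hy
    refine ⟨σ⁻¹ y, ?_, ?_⟩
    · rw [Set.Finite.mem_toFinset]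
      exact lorb_map (lfix_inv h) hy
    · exact AlgEquiv.apply_symm_apply σ y
  · intro y _
    simp

theorem oP_coeff (F : LF p) (x : Om p) (j : ℕ) : (oP F x).coeff j ∈ F := by
  refine lfix_mem fun σ hσ => ?_
  have h := congrArg (fun P => Polynomial.coeff P j) (oP_map F x hσ)
  simpa using h

theorem norm_eval (F : LF p) (x β : Om p) :
    ‖(oP F x).eval β‖ = ∏ y ∈ (lorb_finite F x).toFinset, ‖β - y‖ := by
  rw [oP_eval, norm_prod]

/-- coefficients of a product -/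
theorem coeff_le {a : ℝ} (ha1 : a ≤ 1) (ha0 : 0 ≤ a) (s : Finset (Om p)) (hs : ∀ y ∈ s, ‖y‖ ≤ a) :
    ∀ j, ‖(∏ y ∈ s, (X - C y)).coeff j‖ ≤ 1 ∧
      (j ≠ s.card → ‖(∏ y ∈ s, (X - C y)).coeff j‖ ≤ a) := by
  classical
  induction s using Finset.induction_on with
  | empty =>
    intro j
    simp only [Finset.prod_empty, Finset.card_empty]
    rw [coeff_one]
    split_ifs with h
    · exact ⟨by simp, fun h' => absurd h h'⟩
    · exact ⟨by simp, fun _ => by simpa using ha0⟩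
  | insert y s hy ih =>
    have ih := ih fun z hz => hs z (Finset.mem_insert_of_mem hz)
    have hya := hs y (Finset.mem_insert_self _ _)
    intro j
    rw [Finset.prod_insert hy, Finset.card_insert_of_notMem hy]
    have hna : ∀ u v : Om p, ‖u - v‖ ≤ max ‖u‖ ‖v‖ := fun u v => by
      rw [sub_eq_add_neg]
      refine (IsUltrametricDist.norm_add_le_max u (-v)).trans ?_
      rw [norm_neg]
    have hm : ∀ i, ‖y * (∏ z ∈ s, (X - C z)).coeff i‖ ≤ a := by
      intro i
      rw [norm_mul]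
      calc ‖y‖ * ‖(∏ z ∈ s, (X - C z)).coeff i‖ ≤ a * 1 :=
            mul_le_mul hya (ih i).1 (norm_nonneg _) ha0
        _ = a := mul_one a
    cases j with
    | zero =>
      rw [mul_coeff_zero]
      have e : (X - C y : (Om p)[X]).coeff 0 = -y := by simp
      rw [e, neg_mul, norm_neg]
      exact ⟨(hm 0).trans ha1, fun _ => hm 0⟩
    | succ i =>
      have e : ((X - C y) * ∏ z ∈ s, (X - C z)).coeff (i + 1) =
          (∏ z ∈ s, (X - C z)).coeff i - y * (∏ z ∈ s, (X - C z)).coeff (i + 1) := by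
        rw [sub_mul, coeff_sub, coeff_X_mul, coeff_C_mul]
      rw [e]
      refine ⟨(hna _ _).trans (max_le (ih i).1 ((hm _).trans ha1)), fun h => ?_⟩
      exact (hna _ _).trans (max_le ((ih i).2 fun h' => h (by rw [h'])) (hm _))

/-- roots of an Eisenstein polynomial -/
theorem root_norm {g : (Om p)[X]} {N : ℕ} (hN : 1 ≤ N) (hg : g.Monic) (hd : g.natDegree = N)
    {b : ℝ} (hb1 : b < 1) (hb0 : 0 < b) (hc : ∀ j, j < N → ‖g.coeff j‖ ≤ b)
    (h0 : ‖g.coeff 0‖ = b) {β : Om p} (hβ : g.eval β = 0) : ‖β‖ ^ N = b := by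
  have hsum : g.eval β = ∑ j ∈ Finset.range N, g.coeff j * β ^ j + β ^ N := by
    rw [eval_eq_sum_range, hd, Finset.sum_range_succ]
    have : g.coeff N = 1 := by rw [← hd]; exact hg
    rw [this, one_mul]
  rw [hβ] at hsum
  have hsum' : β ^ N = -∑ j ∈ Finset.range N, g.coeff j * β ^ j := by
    linear_combination -hsum
  have hlt : ‖β‖ < 1 := by
    by_contra hcon
    rw [not_lt] at hcon
    have h1 : ‖β ^ N‖ ≤ b * ‖β‖ ^ (N - 1) := by
      rw [hsum', norm_neg]
      refine IsUltrametricDist.norm_sum_le_of_forall_le_of_nonneg (by positivity) ?_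
      intro j hj
      rw [Finset.mem_range] at hj
      rw [norm_mul, norm_pow]
      exact mul_le_mul (hc j hj) (pow_le_pow_right₀ hcon (by omega)) (by positivity) hb0.le
    rw [norm_pow] at h1
    have h2 : ‖β‖ ^ (N - 1) ≤ ‖β‖ ^ N := pow_le_pow_right₀ hcon (by omega)
    have h3 : 0 < ‖β‖ ^ (N - 1) := by positivity
    nlinarith
  obtain ⟨m, rfl⟩ : ∃ m, N = m + 1 := ⟨N - 1, by omega⟩
  rw [Finset.sum_range_succ'] at hsum'
  simp only [pow_zero, mul_one] at hsum'
  have h1 : ‖∑ j ∈ Finset.range m, g.coeff (j + 1) * β ^ (j + 1)‖ ≤ b * ‖β‖ := by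
    refine IsUltrametricDist.norm_sum_le_of_forall_le_of_nonneg (by positivity) ?_
    intro j hj
    rw [Finset.mem_range] at hj
    rw [norm_mul, norm_pow]
    refine mul_le_mul (hc _ (by omega)) ?_ (by positivity) hb0.le
    calc ‖β‖ ^ (j + 1) ≤ ‖β‖ ^ 1 := pow_le_pow_of_le_one (norm_nonneg _) hlt.le (by omega)
      _ = ‖β‖ := pow_one _
  have h2 : ‖∑ j ∈ Finset.range m, g.coeff (j + 1) * β ^ (j + 1)‖ < ‖g.coeff 0‖ := by
    rw [h0]
    refine h1.trans_lt ?_
    nlinarith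
  have h3 := IsUltrametricDist.norm_add_eq_max_of_norm_ne_norm h2.ne
  rw [← norm_pow, hsum', norm_neg, h3, max_eq_right h2.le, h0]

theorem norm_sub_max {x y : Om p} (h : ‖x‖ ≤ ‖x - y‖) : ‖x - y‖ = max ‖x‖ ‖y‖ := by
  have hle : ‖x - y‖ ≤ max ‖x‖ ‖y‖ := by
    rw [sub_eq_add_neg]
    refine (IsUltrametricDist.norm_add_le_max x (-y)).trans ?_
    rw [norm_neg]
  by_cases hne : ‖x‖ = ‖y‖
  · rw [hne, max_self] at hle ⊢
    rw [hne] at h
    exact le_antisymm hle h
  · rw [sub_eq_add_neg]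
    have := IsUltrametricDist.norm_add_eq_max_of_norm_ne_norm (x := x) (y := -y)
      (by rwa [norm_neg])
    rw [this, norm_neg]

/-- fixing `k` and `β` implies fixing `k(β)` -/
theorem fix_sup {k : LF p} {β : Om p} {σ : LAut p} (h : LFix k σ) (hβ : σ β = β) :
    LFix (k ⊔ IntermediateField.adjoin ℚ_[p] {β}) σ := by
  have hle : k ⊔ IntermediateField.adjoin ℚ_[p] {β} ≤
      IntermediateField.fixedField (Subgroup.zpowers σ) := by
    refine sup_le ?_ ?_
    · intro x hx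
      rw [IntermediateField.mem_fixedField_iff]
      intro τ hτ
      have : τ ∈ MulAction.stabilizer (LAut p) x :=
        (Subgroup.zpowers_le.2 (show σ ∈ MulAction.stabilizer (LAut p) x from h x hx)) hτ
      exact this
    · rw [IntermediateField.adjoin_le_iff, Set.singleton_subset_iff, SetLike.mem_coe,
        IntermediateField.mem_fixedField_iff]
      intro τ hτ
      have : τ ∈ MulAction.stabilizer (LAut p) β :=
        (Subgroup.zpowers_le.2 (show σ ∈ MulAction.stabilizer (LAut p) β from hβ)) hτ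
      exact this
  intro x hx
  have h1 := hle hx
  rw [IntermediateField.mem_fixedField_iff] at h1
  exact h1 σ (Subgroup.mem_zpowers σ)

/-- a root of a polynomial over `k` of degree `#lorb k π` which generates `L` lies in `L` -/
theorem mem_of_le {k L : LF p} (hkL : k ≤ L) {π β : Om p} (hπ : π ∈ L)
    (hL : L ≤ k ⊔ IntermediateField.adjoin ℚ_[p] {β})
    (hc : (lorb k β).ncard ≤ (lorb k π).ncard) : β ∈ L := by
  classical
  have key : ∀ σ τ : LAut p, LFix k σ → LFix k τ → σ β = τ β → σ π = τ π := by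
    intro σ τ hσ hτ h
    have h1 : (τ⁻¹ * σ) β = β := by
      rw [AlgEquiv.mul_apply, h]
      exact AlgEquiv.symm_apply_apply τ β
    have h2 := fix_sup (lfix_mul (lfix_inv hτ) hσ) h1 π (hL hπ)
    rw [AlgEquiv.mul_apply] at h2
    have h3 := congrArg τ h2
    rwa [show τ (τ⁻¹ (σ π)) = σ π from AlgEquiv.apply_symm_apply τ (σ π)] at h3
  have hch : ∀ y : Om p, ∃ σ : LAut p, y ∈ lorb k β → LFix k σ ∧ σ β = y := by
    intro y
    by_cases hy : y ∈ lorb k β
    · obtain ⟨σ, h1, h2⟩ := hy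
      exact ⟨σ, fun _ => ⟨h1, h2⟩⟩
    · exact ⟨1, fun h => absurd h hy⟩
  choose S hS using hch
  have hsurj : ∀ z ∈ (lorb_finite k π).toFinset, ∃ (y : Om p)
      (hy : y ∈ (lorb_finite k β).toFinset), z = (fun y _ => S y π) y hy := by
    intro z hz
    rw [Set.Finite.mem_toFinset] at hz
    obtain ⟨σ, hσ, rfl⟩ := hz
    have hm : σ β ∈ lorb k β := ⟨σ, hσ, rfl⟩
    refine ⟨σ β, by rw [Set.Finite.mem_toFinset]; exact hm, ?_⟩
    exact key σ _ hσ (hS _ hm).1 (hS _ hm).2.symm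
  have hcard : (lorb_finite k β).toFinset.card ≤ (lorb_finite k π).toFinset.card := by
    rwa [← Set.ncard_eq_toFinset_card _ (lorb_finite k β),
      ← Set.ncard_eq_toFinset_card _ (lorb_finite k π)]
  have hinj := Finset.inj_on_of_surj_on_of_card_le (s := (lorb_finite k β).toFinset)
    (t := (lorb_finite k π).toFinset) (fun y _ => S y π) (by
      intro y hy
      rw [Set.Finite.mem_toFinset] at hy ⊢
      exact ⟨S y, (hS y hy).1, rfl⟩) (by
      intro z hz
      obtain ⟨y, hy, h⟩ := hsurj z hz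
      exact ⟨y, hy, h.symm⟩) hcard
  refine lfix_mem fun σ hσ => ?_
  have hσk : LFix k σ := fun x hx => hσ x (hkL hx)
  have hm : σ β ∈ lorb k β := ⟨σ, hσk, rfl⟩
  have hm' : β ∈ lorb k β := self_mem k β
  have e1 : S (σ β) π = σ π := key _ _ (hS _ hm).1 hσk (hS _ hm).2
  have e2 : S β π = π := key _ 1 (hS _ hm').1 (fun _ _ => rfl) (hS _ hm').2
  exact hinj (by rw [Set.Finite.mem_toFinset]; exact hm) (by rw [Set.Finite.mem_toFinset]; exact hm')
    (by show S (σ β) π = S β π; rw [e1, e2, hσ π hπ])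

theorem prod_zpow_sum {a : ℝ} (ha : 0 < a) (s : Finset (Om p)) (v : Om p → ℤ) :
    ∏ y ∈ s, a ^ v y = a ^ ∑ y ∈ s, v y := by
  classical
  induction s using Finset.induction_on with
  | empty => simp
  | insert y s hy ih => rw [Finset.prod_insert hy, Finset.sum_insert hy, zpow_add₀ ha.ne', ih]

theorem norm_sub_le' (u v : Om p) : ‖u - v‖ ≤ max ‖u‖ ‖v‖ := by
  rw [sub_eq_add_neg]
  refine (IsUltrametricDist.norm_add_le_max u (-v)).trans ?_
  rw [norm_neg]

end L7

open L7 in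
theorem l7 : S_STRUCT → S_FONT := by
  classical
  intro hST p _ k L hk hkL hfin hnor π hπ t ht hFon
  obtain ⟨hkf, hk3⟩ := (hST p L hfin).2.2 k hk hkL
  obtain ⟨πk, hπk⟩ := (hST p k hkf).1
  have hN := hk3 πk π hπk hπ
  have hfs := lorb_finite k π
  set s : Finset (Om p) := hfs.toFinset with hs
  have hmem : ∀ y, y ∈ s ↔ y ∈ lorb k π := fun y => Set.Finite.mem_toFinset hfs
  set N := (lorb k π).ncard with hNdef
  have hscard : s.card = N := (Set.ncard_eq_toFinset_card _ hfs).symm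
  set a := ‖π‖ with ha
  have ha0 : 0 < a := norm_pos_iff.2 hπ.2.1
  have ha1 : a < 1 := hπ.2.2.1
  have hyn : ∀ y ∈ s, ‖y‖ = a := by
    intro y hy
    obtain ⟨σ, -, rfl⟩ := (hmem y).1 hy
    exact norm_aut σ π
  have hyL : ∀ y ∈ s, y ∈ L := by
    intro y hy
    obtain ⟨σ, hσ, rfl⟩ := (hmem y).1 hy
    exact hnor σ hσ π hπ.1
  have hπs : π ∈ s := (hmem π).2 (self_mem k π)
  have hN1 : 1 ≤ N := by
    rw [← hscard]
    exact Finset.card_pos.2 ⟨π, hπs⟩
  have hp0 : (0 : ℝ) < p := by exact_mod_cast (Fact.out : p.Prime).pos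
  have hp1 : (1 : ℝ) < p := by exact_mod_cast (Fact.out : p.Prime).one_lt
  have hld : ldiff k π = ∏ y ∈ s.erase π, ‖π - y‖ := by
    unfold ldiff
    have e : lorb k π \ {π} = (↑(s.erase π) : Set (Om p)) := by
      ext y
      simp only [Set.mem_sdiff, Set.mem_singleton_iff, Finset.coe_erase, Finset.mem_coe, hmem]
    rw [e, finprod_mem_coe_finset]
  rcases Finset.eq_empty_or_nonempty (s.erase π) with hemp | hne
  · rw [hld, hemp, Finset.prod_empty]
    exact inv_le_one_of_one_le₀ (one_le_pow₀ hp1.le)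
  -- valuations
  have hv0 : ∀ y, ∃ z : ℤ, y ∈ s.erase π → ‖π - y‖ = a ^ z := by
    intro y
    by_cases hy : y ∈ s.erase π
    · rw [Finset.mem_erase] at hy
      obtain ⟨z, hz⟩ := hπ.2.2.2 (π - y) (sub_mem hπ.1 (hyL y hy.2)) (sub_ne_zero.2 (Ne.symm hy.1))
      exact ⟨z, fun _ => hz⟩
    · exact ⟨0, fun h => absurd h hy⟩
  choose v hv using hv0
  obtain ⟨y0, hy0, hmax⟩ := Finset.exists_max_image (s.erase π) v hne
  set μ := v y0 with hμ
  have hμ1 : 1 ≤ μ := by
    have h1 : ‖π - y0‖ ≤ a := by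
      refine (norm_sub_le' π y0).trans ?_
      rw [hyn y0 (Finset.mem_of_mem_erase hy0), max_self]
    rw [hv y0 hy0] at h1
    by_contra hcon
    have h2 : v y0 ≤ 0 := by omega
    have h3 : (1 : ℝ) ≤ a ^ v y0 := by
      rw [← zpow_zero a]
      exact zpow_le_zpow_right_of_le_one₀ ha0 ha1.le h2
    linarith
  set D := ∑ y ∈ s.erase π, v y with hD
  have hldD : ldiff k π = a ^ D := by
    rw [hld, ← prod_zpow_sum ha0]
    exact Finset.prod_congr rfl hv
  -- `p`
  obtain ⟨e, he⟩ : ∃ e : ℤ, (p : ℝ)⁻¹ = ‖πk‖ ^ e := by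
    have h1 : ‖(p : Om p)‖ = (p : ℝ)⁻¹ := by
      have h2 : ((p : ℚ_[p]) : Om p) = (p : Om p) := map_natCast (algebraMap ℚ_[p] (PadicAlgCl p)) p
      have h3 := PadicAlgCl.norm_extends (p := p) (p : ℚ_[p])
      rw [h2] at h3
      rw [h3]
      exact Padic.norm_p
    have h0 : (p : Om p) ≠ 0 := by
      intro h
      rw [h, norm_zero] at h1
      have : (0 : ℝ) < (p : ℝ)⁻¹ := inv_pos.2 hp0
      linarith
    obtain ⟨e, he⟩ := hπk.2.2.2 (p : Om p) (natCast_mem k p) h0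
    exact ⟨e, by rw [← h1, he]⟩
  have hk0 : 0 < ‖πk‖ := norm_pos_iff.2 hπk.2.1
  have hk1 : ‖πk‖ < 1 := hπk.2.2.1
  have he1 : 1 ≤ e := by
    by_contra hcon
    have h2 : e ≤ 0 := by omega
    have h3 : (1 : ℝ) ≤ ‖πk‖ ^ e := by
      rw [← zpow_zero ‖πk‖]
      exact zpow_le_zpow_right_of_le_one₀ hk0 hk1.le h2
    rw [← he] at h3
    have : (p : ℝ)⁻¹ < 1 := inv_lt_one_of_one_lt₀ hp1
    linarith
  have hpa : ∀ m : ℕ, ((p : ℝ) ^ m)⁻¹ = a ^ ((N : ℤ) * e * m) := by
    intro m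
    rw [← inv_pow, he, ← hN, zpow_mul, zpow_mul, zpow_natCast, zpow_natCast]
  have hanti : ∀ m n : ℤ, a ^ m ≤ a ^ n ↔ n ≤ m := fun m n =>
    zpow_le_zpow_iff_right_of_lt_one₀ ha0 ha1
  rw [hldD, hpa, hanti]
  by_contra hcon
  rw [not_le] at hcon
  have hNpos : (0 : ℤ) < N := by exact_mod_cast hN1
  have ht' : (2 : ℤ) ≤ t := by exact_mod_cast ht
  have hNe : (N : ℤ) ≤ N * e := by nlinarith
  have hNet : (N : ℤ) * e * t + N ≤ N * e * ((t + 1 : ℕ) : ℤ) := by
    push_cast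
    nlinarith
  have h2N : 2 * (N : ℤ) ≤ N * e * t := by nlinarith
  set T := D + μ - 1 with hT
  obtain ⟨r, s0, hr, hs0⟩ : ∃ (r : ℤ) (s0 : ℕ), T = N * r + s0 ∧ s0 < N := by
    refine ⟨T / N, (T % N).toNat, ?_, ?_⟩
    · have h1 := Int.emod_nonneg T hNpos.ne'
      have h2 := Int.mul_ediv_add_emod T N
      rw [Int.toNat_of_nonneg h1]
      exact h2.symm
    · have h1 := Int.emod_nonneg T hNpos.ne'
      have h2 := Int.emod_lt_of_pos T hNpos
      omega
  have hr2 : 2 ≤ r := by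
    by_contra hcon'
    have h1 : r ≤ 1 := by omega
    have h2 : (N : ℤ) * r ≤ N * 1 := mul_le_mul_of_nonneg_left h1 hNpos.le
    have h3 : (s0 : ℤ) < N := by exact_mod_cast hs0
    omega
  set c : Om p := πk ^ r with hcdef
  have hck : c ∈ k := zpow_mem hπk.1 r
  have hcn : ‖c‖ = ‖πk‖ ^ r := norm_zpow πk r
  have hclt : ‖c‖ < ‖πk‖ := by
    rw [hcn]
    calc ‖πk‖ ^ r < ‖πk‖ ^ (1 : ℤ) := (zpow_lt_zpow_iff_right_of_lt_one₀ hk0 hk1).2 (by omega)
      _ = ‖πk‖ := zpow_one _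
  set f := oP k π with hf
  set g := f - C c * X ^ s0 with hg
  have hfd : f.natDegree = N := oP_deg k π
  have hfm : f.Monic := oP_monic k π
  have hdeg : (C c * X ^ s0 : (Om p)[X]).degree < f.degree := by
    refine (degree_C_mul_X_pow_le s0 c).trans_lt ?_
    rw [degree_eq_natDegree hfm.ne_zero, hfd]
    exact_mod_cast hs0
  have hgm : g.Monic := hfm.sub_of_left hdeg
  have hgd : g.natDegree = N := by
    rw [← hfd]
    exact natDegree_eq_of_degree_eq (degree_sub_eq_left_of_degree_lt hdeg)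
  have hgc : ∀ j, g.coeff j = f.coeff j - if j = s0 then c else 0 := by
    intro j
    rw [hg, coeff_sub, coeff_C_mul, coeff_X_pow]
    split_ifs <;> simp
  -- coefficients of `f`
  have hfc : ∀ j, j < N → ‖f.coeff j‖ ≤ ‖πk‖ := by
    intro j hj
    by_cases h0 : f.coeff j = 0
    · rw [h0, norm_zero]; exact hk0.le
    obtain ⟨z, hz⟩ := hπk.2.2.2 (f.coeff j) (oP_coeff k π j) h0
    have h1 : ‖f.coeff j‖ ≤ a :=
      (coeff_le ha1.le ha0.le s (fun y hy => (hyn y hy).le) j).2 (by rw [hscard]; omega)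
    rw [hz] at h1 ⊢
    have h2 : 1 ≤ z := by
      by_contra hcon'
      have h3 : (1 : ℝ) ≤ ‖πk‖ ^ z := by
        rw [← zpow_zero ‖πk‖]
        exact zpow_le_zpow_right_of_le_one₀ hk0 hk1.le (by omega)
      linarith
    calc ‖πk‖ ^ z ≤ ‖πk‖ ^ (1 : ℤ) := zpow_le_zpow_right_of_le_one₀ hk0 hk1.le h2
      _ = ‖πk‖ := zpow_one _
  have hf0 : ‖f.coeff 0‖ = ‖πk‖ := by
    rw [coeff_zero_eq_eval_zero, norm_eval, ← hN, ← hscard]
    rw [Finset.prod_congr rfl (g := fun _ => a) (fun y hy => by rw [zero_sub, norm_neg]; exact hyn y hy)]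
    rw [Finset.prod_const]
  have hgcb : ∀ j, j < N → ‖g.coeff j‖ ≤ ‖πk‖ := by
    intro j hj
    rw [hgc]
    refine (norm_sub_le' _ _).trans (max_le (hfc j hj) ?_)
    split_ifs
    · exact hclt.le
    · rw [norm_zero]; exact hk0.le
  have hg0 : ‖g.coeff 0‖ = ‖πk‖ := by
    rw [hgc]
    split_ifs
    · have h1 := IsUltrametricDist.norm_add_eq_max_of_norm_ne_norm (x := f.coeff 0) (y := -c)
        (by rw [norm_neg, hf0]; exact hclt.ne')
      rw [sub_eq_add_neg, h1, norm_neg, hf0, max_eq_left hclt.le]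
    · rw [sub_zero, hf0]
  have hroot : ∀ γ : Om p, g.eval γ = 0 → ‖γ‖ = a ∧ ‖f.eval γ‖ = a ^ T := by
    intro γ hγ
    have h1 := root_norm hN1 hgm hgd hk1 hk0 hgcb hg0 hγ
    rw [← hN] at h1
    have h2 : ‖γ‖ = a := (pow_left_inj₀ (norm_nonneg _) ha0.le (by omega)).1 h1
    refine ⟨h2, ?_⟩
    have h3 : f.eval γ = c * γ ^ s0 := by
      have : g.eval γ = f.eval γ - c * γ ^ s0 := by
        rw [hg]; simp
      rw [this] at hγ
      exact sub_eq_zero.1 hγ
    rw [h3, norm_mul, norm_pow, h2, hcn, ← hN, hr, zpow_add₀ ha0.ne', zpow_mul, zpow_natCast,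
      zpow_natCast]
  have hgmap : ∀ σ : LAut p, LFix k σ → g.map (σ : Om p →+* Om p) = g := by
    intro σ hσ
    rw [hg, Polynomial.map_sub, oP_map k π hσ, Polynomial.map_mul, Polynomial.map_pow, map_C, map_X]
    have : (σ : Om p →+* Om p) c = c := hσ c hck
    rw [this]
  have hgroot : ∀ σ : LAut p, LFix k σ → ∀ γ, g.eval γ = 0 → g.eval (σ γ) = 0 := by
    intro σ hσ γ hγ
    have h1 : IsRoot g γ := hγ
    have h2 := h1.map (f := (σ : Om p →+* Om p))
    rw [hgmap σ hσ] at h2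
    exact h2
  obtain ⟨β, hβ⟩ : ∃ β, g.eval β = 0 := by
    obtain ⟨β, hβ⟩ := IsAlgClosed.exists_root g (by
      rw [degree_eq_natDegree hgm.ne_zero, hgd]
      exact_mod_cast (by omega : N ≠ 0))
    exact ⟨β, hβ⟩
  obtain ⟨-, hβf⟩ := hroot β hβ
  have hTD : D ≤ T := by omega
  have hLβ : L ≤ k ⊔ IntermediateField.adjoin ℚ_[p] {β} := by
    refine hFon β ?_
    have e1 : (lorb k π) = (↑s : Set (Om p)) := by
      ext y
      rw [Finset.mem_coe, hmem]
    rw [e1, finprod_mem_coe_finset, ← norm_eval, hβf, hpa, hanti]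
    omega
  have hcard : (lorb k β).ncard ≤ (lorb k π).ncard := by
    have h1 : lorb k β ⊆ (↑(g.roots.toFinset) : Set (Om p)) := by
      rintro y ⟨σ, hσ, rfl⟩
      rw [Finset.mem_coe, Multiset.mem_toFinset, mem_roots hgm.ne_zero]
      exact hgroot σ hσ β hβ
    have h2 := Set.ncard_le_ncard h1 (Finset.finite_toSet _)
    rw [Set.ncard_coe_finset] at h2
    refine h2.trans ((Multiset.toFinset_card_le _).trans ((card_roots' g).trans ?_))
    rw [hgd]
  have hβL : β ∈ L := mem_of_le hkL hπ.1 hLβ hcard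
  obtain ⟨y1, hy1, hmin⟩ := Finset.exists_min_image s (fun y => ‖β - y‖) ⟨π, hπs⟩
  obtain ⟨τ, hτ, hτy⟩ := (hmem y1).1 hy1
  set β' := τ⁻¹ β with hβ'
  have hτβ : τ β' = β := AlgEquiv.apply_symm_apply τ β
  have hβ'L : β' ∈ L := hnor τ⁻¹ (lfix_inv hτ) β hβL
  obtain ⟨-, hβ'f⟩ := hroot β' (hgroot τ⁻¹ (lfix_inv hτ) β hβ)
  have hclose : ∀ y ∈ s, ‖β' - π‖ ≤ ‖β' - y‖ := by
    intro y hy
    rw [← norm_aut τ (β' - π), ← norm_aut τ (β' - y), map_sub, map_sub, hτβ, hτy]
    exact hmin (τ y) ((hmem _).2 (lorb_map hτ ((hmem y).1 hy)))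
  rw [norm_eval] at hβ'f
  have hne' : β' - π ≠ 0 := by
    intro h
    have h1 : ∏ y ∈ (lorb_finite k π).toFinset, ‖β' - y‖ = 0 :=
      Finset.prod_eq_zero hπs (by rw [h, norm_zero])
    rw [h1] at hβ'f
    exact (zpow_pos ha0 T).ne hβ'f
  obtain ⟨x, hx⟩ := hπ.2.2.2 (β' - π) (sub_mem hβ'L hπ.1) hne'
  have hpr : ∀ y ∈ s.erase π, ‖β' - y‖ = a ^ min x (v y) := by
    intro y hy
    have h1 : β' - y = (β' - π) - (y - π) := by ring
    have h2 := hclose y (Finset.mem_of_mem_erase hy)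
    rw [h1] at h2 ⊢
    rw [norm_sub_max h2, hx, norm_sub_rev y π, hv y hy]
    rcases le_total x (v y) with h | h
    · rw [min_eq_left h, max_eq_left ((hanti _ _).2 h)]
    · rw [min_eq_right h, max_eq_right ((hanti _ _).2 h)]
  have hTx : T = x + ∑ y ∈ s.erase π, min x (v y) := by
    have h1 : a ^ T = a ^ (x + ∑ y ∈ s.erase π, min x (v y)) := by
      rw [zpow_add₀ ha0.ne', ← prod_zpow_sum ha0, ← hβ'f, ← hx]
      rw [← Finset.mul_prod_erase _ _ hπs]
      congr 1
      exact Finset.prod_congr rfl hpr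
    exact zpow_right_injective₀ ha0 ha1.ne h1
  rcases le_or_gt μ x with hx1 | hx1
  · have h1 : ∑ y ∈ s.erase π, min x (v y) = D := by
      refine Finset.sum_congr rfl fun y hy => min_eq_right ((hmax y hy).trans hx1)
    rw [h1] at hTx
    omega
  · have h1 : ∑ y ∈ s.erase π, min x (v y) ≤ x + (D - μ) := by
      rw [← Finset.add_sum_erase _ _ hy0]
      refine add_le_add (min_le_left _ _) ?_
      have h2 : D - μ = ∑ y ∈ (s.erase π).erase y0, v y := by
        rw [hD, ← Finset.add_sum_erase _ _ hy0]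
        ring
      rw [h2]
      exact Finset.sum_le_sum fun y _ => min_le_right _ _
    omega

end Pool.Agent.W803.RK
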